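import Pool.Agent.Lib.MP_172a45_an.H64.Box

set_option autoImplicit false

/-!
# `N = 5`: the variance is at most `63/50` (from (Rw') alone)
-/

namespace Pool.Agent.Lib.MP_172a45_an.H64

open Finset F

/-- the polynomial inequality -/
theorem five_poly {a b : ℝ} (ha : 0 < a) (hb : 0 < b) (hab : b = 1 - a) :
    (a + (1 - a ^ 2)) ^ 5 * (6 * (a + (1 - a ^ 2)) ^ 2 +
      4016 / 1000 * (1 - a ^ 2) * (a + (1 - a ^ 2))) <
    (1 + 5 * (1 - a ^ 2) * (1 - a / 2)) * (6 * (a + (1 - a ^ 2)) ^ 2 +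
      4016 / 1000 * (1 - a ^ 2) * (a + (1 - a ^ 2)) + 378 / 100 * (1 - a ^ 2) ^ 2) := by
  have key : (1 + 5 * (1 - a ^ 2) * (1 - a / 2)) * (6 * (a + (1 - a ^ 2)) ^ 2 +
      4016 / 1000 * (1 - a ^ 2) * (a + (1 - a ^ 2)) + 378 / 100 * (1 - a ^ 2) ^ 2) -
      (a + (1 - a ^ 2)) ^ 5 * (6 * (a + (1 - a ^ 2)) ^ 2 +
      4016 / 1000 * (1 - a ^ 2) * (a + (1 - a ^ 2))) =
      b ^ 2 * ((3/25) * a ^ 12 + (1421/25) * b * a ^ 11 + (1657/2) * b ^ 2 * a ^ 10 +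
        (270411/50) * b ^ 3 * a ^ 9 + (10106209/500) * b ^ 4 * a ^ 8 +
        (23623779/500) * b ^ 5 * a ^ 7 + (7191473/100) * b ^ 6 * a ^ 6 +
        (36333587/500) * b ^ 7 * a ^ 5 + (4906391/100) * b ^ 8 * a ^ 4 +
        (2189657/100) * b ^ 9 * a ^ 3 + (620809/100) * b ^ 10 * a ^ 2 +
        (20283/20) * b ^ 11 * a + (1819/25) * b ^ 12) := by
    rw [hab]
    ring
  have hpos : 0 < b ^ 2 * ((3/25) * a ^ 12 + (1421/25) * b * a ^ 11 + (1657/2) * b ^ 2 * a ^ 10 +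
        (270411/50) * b ^ 3 * a ^ 9 + (10106209/500) * b ^ 4 * a ^ 8 +
        (23623779/500) * b ^ 5 * a ^ 7 + (7191473/100) * b ^ 6 * a ^ 6 +
        (36333587/500) * b ^ 7 * a ^ 5 + (4906391/100) * b ^ 8 * a ^ 4 +
        (2189657/100) * b ^ 9 * a ^ 3 + (620809/100) * b ^ 10 * a ^ 2 +
        (20283/20) * b ^ 11 * a + (1819/25) * b ^ 12) := by positivity
  linarith

/-- (Rw') with moduli only -/
theorem rw_mod {N : ℕ} {a : ℝ} {ζ z : Fin N → ℂ} (h : Fr N a ζ z) :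
    1 + (1 - a ^ 2) * (N * (1 - a / 2)) ≤ ∏ k, (a + (1 - a ^ 2) * ‖Fr.u a ζ k‖) := by
  have ha0 := h.a0
  have ha1 := h.a1
  have hm : 0 < 1 - a ^ 2 := by nlinarith
  have h1 := h.Rw'
  have h2 : ∀ k, ‖(a : ℂ) + (1 - (a : ℂ) ^ 2) * Fr.u a ζ k‖ ≤ a + (1 - a ^ 2) * ‖Fr.u a ζ k‖ := by
    intro k
    refine (norm_add_le _ _).trans ?_
    rw [norm_mul, Complex.norm_real, Real.norm_of_nonneg ha0.le]
    have : (1 : ℂ) - (a : ℂ) ^ 2 = ((1 - a ^ 2 : ℝ) : ℂ) := by push_cast; ring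
    rw [this, Complex.norm_real, Real.norm_of_nonneg hm.le]
  have h3 : (∑ k, Fr.u a ζ k).re ≤ N := by
    refine (Complex.re_le_norm _).trans ?_
    refine (norm_sum_le _ _).trans (le_of_eq ?_)
    exact h.mean
  refine le_trans ?_ (h1.trans (Finset.prod_le_prod (fun _ _ => norm_nonneg _) fun k _ => h2 k))
  have : (N : ℝ) * (1 - a / 2) ≤ N - a / 2 * (∑ k, Fr.u a ζ k).re := by nlinarith
  nlinarith

theorem W_five {a : ℝ} {ζ z : Fin 5 → ℂ} (h : Fr 5 a ζ z) : W a ζ ≤ 63 / 50 := by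
  by_contra hcon
  push Not at hcon
  have ha0 := h.a0
  have ha1 := h.a1
  have hpoly := five_poly ha0 (b := 1 - a) (by linarith) rfl
  have hm : 0 < 1 - a ^ 2 := by nlinarith
  have hR := rw_mod h
  set m : ℝ := 1 - a ^ 2 with hmdef
  set s : ℝ := a + m with hs
  have hs0 : 0 < s := by linarith
  set w : ℝ := W a ζ with hw
  set μ : ℝ := m / s with hμ
  have hμ0 : 0 < μ := by positivity
  have hμs : μ * s = m := by rw [hμ]; field_simp
  set X : ℝ := 1004 / 1000 * w / (63 / 50) with hX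
  have hX0 : 0 < X := by rw [hX]; positivity
  have hXw : X * (63 / 50) = 1004 / 1000 * w := by rw [hX]; field_simp
  have hdev : ∀ k, ‖Fr.u a ζ k‖ - 1 ≤ X := by
    intro k
    refine dev_le_of_W h 5 (by norm_num) le_rfl hX0.le le_rfl ?_ k
    push_cast
    have e : X ^ 2 * (63 / 50) ^ 2 = (1004 / 1000) ^ 2 * w ^ 2 := by
      rw [← mul_pow, hXw]; ring
    nlinarith
  have hx0 : ∑ k, (‖Fr.u a ζ k‖ - 1) = 0 := by
    rw [Finset.sum_sub_distrib, h.mean]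
    simp
  have hfac : ∀ k, a + m * ‖Fr.u a ζ k‖ = s * (1 + μ * (‖Fr.u a ζ k‖ - 1)) := by
    intro k
    have : s * (1 + μ * (‖Fr.u a ζ k‖ - 1)) = s + (μ * s) * (‖Fr.u a ζ k‖ - 1) := by ring
    rw [this, hμs, hs]
    ring
  have hpos : ∀ k, 0 < 1 + μ * (‖Fr.u a ζ k‖ - 1) := by
    intro k
    have h1 : 0 < a + m * ‖Fr.u a ζ k‖ := by positivity
    rw [hfac k] at h1
    exact (mul_pos_iff_of_pos_left hs0).1 h1
  -- the logarithms
  have hlog : ∀ k, 3 * (μ * (‖Fr.u a ζ k‖ - 1)) ^ 2 ≤ (6 + 4 * (μ * X)) *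
      (μ * (‖Fr.u a ζ k‖ - 1) - Real.log (1 + μ * (‖Fr.u a ζ k‖ - 1))) := by
    intro k
    have h1 := delta_ge (t := 1 + μ * (‖Fr.u a ζ k‖ - 1)) (X := μ * X) (hpos k) (by positivity)
      (by
        have := mul_le_mul_of_nonneg_left (hdev k) hμ0.le
        linarith)
    simpa using h1
  have hsum : 3 * μ ^ 2 * w ≤ (6 + 4 * (μ * X)) *
      (-∑ k, Real.log (1 + μ * (‖Fr.u a ζ k‖ - 1))) := by
    have h1 := Finset.sum_le_sum fun k (_ : k ∈ (univ : Finset (Fin 5))) => hlog k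
    have e1 : ∑ k, (6 + 4 * (μ * X)) *
        (μ * (‖Fr.u a ζ k‖ - 1) - Real.log (1 + μ * (‖Fr.u a ζ k‖ - 1))) =
        (6 + 4 * (μ * X)) * (-∑ k, Real.log (1 + μ * (‖Fr.u a ζ k‖ - 1))) := by
      rw [← Finset.mul_sum, Finset.sum_sub_distrib, ← Finset.mul_sum, hx0, mul_zero, zero_sub]
    have e2 : ∑ k, 3 * (μ * (‖Fr.u a ζ k‖ - 1)) ^ 2 = 3 * μ ^ 2 * w := by
      have : ∀ k, 3 * (μ * (‖Fr.u a ζ k‖ - 1)) ^ 2 = 3 * μ ^ 2 * (‖Fr.u a ζ k‖ - 1) ^ 2 :=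
        fun k => by ring
      simp only [this]
      rw [← Finset.mul_sum]
      rfl
    rw [e1, e2] at h1
    exact h1
  set Λ : ℝ := -∑ k, Real.log (1 + μ * (‖Fr.u a ζ k‖ - 1)) with hΛ
  -- `Λ ≥ y₀`
  have hΛ1 : 3 * μ ^ 2 * (63 / 50) ≤ (6 + 4016 / 1000 * μ) * Λ := by
    have hΛ0 : 0 ≤ Λ := by
      have h1 : 0 ≤ (6 + 4 * (μ * X)) * Λ := le_trans (by positivity) hsum
      exact nonneg_of_mul_nonneg_right h1 (by positivity)
    have h2 : 3 * μ ^ 2 * w * (63 / 50) ≤ (6 * (63 / 50) + 4 * μ * (1004 / 1000 * w)) * Λ := by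
      have := mul_le_mul_of_nonneg_right hsum (by norm_num : (0:ℝ) ≤ 63 / 50)
      refine this.trans (le_of_eq ?_)
      rw [← hXw]
      ring
    have h3 : (6 * (63 / 50) + 4 * μ * (1004 / 1000 * w)) * Λ ≤
        (6 + 4016 / 1000 * μ) * Λ * w := by
      nlinarith [mul_nonneg hΛ0 (by linarith : (0:ℝ) ≤ w - 63 / 50)]
    have h4 : 3 * μ ^ 2 * (63 / 50) * w ≤ (6 + 4016 / 1000 * μ) * Λ * w := by linarith
    exact le_of_mul_le_mul_right h4 (by linarith)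
  -- the product
  have hprod : ∏ k, (a + m * ‖Fr.u a ζ k‖) = s ^ 5 * Real.exp (-Λ) := by
    simp only [hfac]
    rw [Finset.prod_mul_distrib, Finset.prod_const, Finset.card_univ, Fintype.card_fin]
    congr 1
    rw [hΛ, neg_neg, ← Real.log_prod fun k _ => (hpos k).ne',
      Real.exp_log (Finset.prod_pos fun k _ => hpos k)]
  rw [hprod] at hR
  have hexp : Real.exp (-Λ) * (1 + Λ) ≤ 1 := by
    have h1 := Real.add_one_le_exp Λ
    have h2 : Real.exp (-Λ) * Real.exp Λ = 1 := by rw [← Real.exp_add]; simp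
    have h3 := Real.exp_pos (-Λ)
    nlinarith
  have hΛ0 : 0 ≤ Λ := by
    have h1 : 0 ≤ (6 + 4016 / 1000 * μ) * Λ := le_trans (by positivity) hΛ1
    exact nonneg_of_mul_nonneg_right h1 (by positivity)
  have hR0 : 0 < 1 + m * (((5 : ℕ) : ℝ) * (1 - a / 2)) := by
    have : 0 < 1 - a / 2 := by linarith
    positivity
  -- `R₀ (1 + Λ) ≤ s ^ 5`
  have hfin : (1 + m * (((5 : ℕ) : ℝ) * (1 - a / 2))) * (1 + Λ) ≤ s ^ 5 := by
    have h1 := mul_le_mul_of_nonneg_right hR (by linarith : 0 ≤ 1 + Λ)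
    have h2 : s ^ 5 * Real.exp (-Λ) * (1 + Λ) ≤ s ^ 5 := by
      have := mul_le_mul_of_nonneg_left hexp (by positivity : 0 ≤ s ^ 5)
      linarith
    linarith
  -- multiply by `6 s² + 4.016 m s`
  have hΛ2 : 378 / 100 * m ^ 2 ≤ (6 * s ^ 2 + 4016 / 1000 * m * s) * Λ := by
    have h1 := mul_le_mul_of_nonneg_right hΛ1 (by positivity : 0 ≤ s ^ 2)
    have e1 : 3 * μ ^ 2 * (63 / 50) * s ^ 2 = 378 / 100 * m ^ 2 := by
      rw [← hμs]; ring
    have e2 : (6 + 4016 / 1000 * μ) * Λ * s ^ 2 = (6 * s ^ 2 + 4016 / 1000 * m * s) * Λ := by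
      rw [← hμs]; ring
    rw [e1, e2] at h1
    exact h1
  have hq : 0 < 6 * s ^ 2 + 4016 / 1000 * m * s := by positivity
  have h5 : (1 + 5 * m * (1 - a / 2)) * (6 * s ^ 2 + 4016 / 1000 * m * s + 378 / 100 * m ^ 2) ≤
      s ^ 5 * (6 * s ^ 2 + 4016 / 1000 * m * s) := by
    have h6 := mul_le_mul_of_nonneg_right hfin hq.le
    have e : (1 + m * (((5 : ℕ) : ℝ) * (1 - a / 2))) = 1 + 5 * m * (1 - a / 2) := by
      push_cast; ring
    rw [e] at h6 hR0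
    have h7 := mul_le_mul_of_nonneg_left hΛ2 hR0.le
    nlinarith
  linarith

end Pool.Agent.Lib.MP_172a45_an.H64
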